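import Pool.Agent.Helper795.Inc

/-!
# Incompressible planar Sobolev homeomorphisms that cannot be approximated

The definitions are in `Pool.Agent.Helper795.SobDefs` and `Pool.Agent.Helper795.IncDefs`, the proof in
`Pool.Agent.Helper795.Inc`.
-/

set_option autoImplicit false

open MeasureTheory
open Pool.Agent.Helper795.SobDefs Pool.Agent.Helper795.IncDefs
open scoped ENNReal

namespace Pool.Agent.Results.MP_69386a_an.NotApproximable

/-- On every nonempty bounded open `Ω ⊆ ℝ²` there is a homeomorphism `f` onto the open set `f(Ω)`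
with `det Df = 1` a.e. which, for every `1 ≤ p < 2`, is in `W^{1,p}(Ω, ℝ²)` but neither a `W^{1,p}`
limit of incompressible diffeomorphisms nor a `W^{1,p}` limit of piecewise affine incompressible
homeomorphisms. -/
theorem result (Ω : Set (Eu 2)) (hΩ : IsOpen Ω) (hb : Bornology.IsBounded Ω) (hne : Ω.Nonempty) :
    ∃ (f : Eu 2 → Eu 2) (Df : Eu 2 → (Eu 2 →L[ℝ] Eu 2)),
      IsOpen (f '' Ω) ∧ IsHomeo Ω (f '' Ω) f ∧
      (∀ᵐ x ∂(volume.restrict Ω), (Df x).det = 1) ∧
      ∀ p : ℝ≥0∞, 1 ≤ p → p < 2 →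
        IsSobolev p Ω f Df ∧
        ¬ IsSobolevLimit p Ω (IsIncompressibleDiffeo Ω) f Df ∧
        ¬ IsSobolevLimit p Ω (IsIncompressiblePA Ω) f Df :=
  Pool.Agent.Helper795.Inc.main Ω hΩ hb hne

end Pool.Agent.Results.MP_69386a_an.NotApproximable
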